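import Pool.Agent.ASO.Stmts4

/-! Row FIN of table aso: the relation between `L2` and `L1` -/

open scoped BigOperators

noncomputable section

namespace Pool.Agent.PP.SO.H48

open Pool.Agent.Helper51_AWC Pool.Agent.Helper79_WRA Pool.Agent.PP Pool.Agent.PP.KF
open Pool.Agent.PP.K9 Pool.Agent.PP.K9.H97 Pool.Agent.PP.H75 Pool.Agent.PP.T3 Pool.Agent.PP.SO

attribute [local instance] Ideal.Quotient.field

open Classical in
theorem fsum {A X : Type} [Fintype A] [AddCommMonoid X] (s : Set A) (f : A → X) :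
    ∑ᶠ i ∈ s, f i = ∑ i, if i ∈ s then f i else 0 := by
  rw [finsum_mem_def, finsum_eq_sum_of_fintype]
  rfl

section gen

variable {n : ℕ} {V₀ : Type} [CommGroup V₀]

theorem pL_bot (L : Set (SS n V₀)) : pL L = ⊥ ↔ ∀ s ∈ L, s.2.2.1 = 1 := by
  unfold pL
  rw [Subgroup.closure_eq_bot_iff]
  constructor
  · intro h s hs
    exact h ⟨s, hs, rfl⟩
  · rintro h p ⟨s, hs, rfl⟩
    exact h s hs

theorem qL_bot (L : Set (SS n V₀)) : qL L = ⊥ ↔ ∀ s ∈ L, s.2.2.2 = 1 := by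
  unfold qL
  rw [Subgroup.closure_eq_bot_iff]
  constructor
  · intro h s hs
    exact h ⟨s, hs, rfl⟩
  · rintro h p ⟨s, hs, rfl⟩
    exact h s hs

theorem aL_bot (κ : V₀) (L : Set (SS n V₀)) :
    aL κ L = ⊥ ↔ ∀ s ∈ L, κ ^ (s.2.1 : ℕ) * s.2.2.1 = 1 := by
  unfold aL
  rw [Subgroup.closure_eq_bot_iff]
  constructor
  · intro h s hs
    exact h ⟨s, hs, rfl⟩
  · rintro h p ⟨s, hs, rfl⟩
    exact h s hs

/-- the conditions of the set `τ₀` -/
def tz (κ κ₂ : V₀) : Set (Set (SS n V₀)) :=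
  {L | ∀ s ∈ L, s.2.2.1 = κ⁻¹ ^ (s.2.1 : ℕ) ∧ s.2.2.2 = κ₂⁻¹ ^ (s.2.1 : ℕ)}

theorem tz_iff (E₀ : Subgroup (MulAut V₀)) (σ : MulAut V₀) (hσ : σ ∈ E₀) (κ : V₀)
    (L : Set (SS n V₀)) : L ∈ tz κ (σ⁻¹ κ) ↔ σ ∈ EL E₀ L ∧ aL κ L = ⊥ := by
  have e1 : ∀ (k : ℕ), (σ⁻¹ κ)⁻¹ ^ k = σ⁻¹ (κ⁻¹ ^ k) := fun k => by
    rw [map_pow, map_inv]
  constructor
  · intro h
    refine ⟨⟨hσ, fun s hs => ?_⟩, (aL_bot κ L).2 fun s hs => ?_⟩
    · rw [(h s hs).2, (h s hs).1, e1, MulAut.apply_inv_self]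
    · rw [(h s hs).1, inv_pow, mul_inv_cancel]
  · rintro ⟨⟨-, h1⟩, h2⟩ s hs
    have h3 := (aL_bot κ L).1 h2 s hs
    have h4 : s.2.2.1 = κ⁻¹ ^ (s.2.1 : ℕ) := by
      rw [inv_pow]
      exact (inv_eq_of_mul_eq_one_right h3).symm
    refine ⟨h4, ?_⟩
    have h5 := h1 s hs
    rw [e1, ← h4, ← h5, MulAut.inv_apply_self]

theorem pL_zp {ℓ : ℕ} [hℓ : Fact ℓ.Prime] (hV : ∀ v : V₀, v ^ ℓ = 1) {κ : V₀} (hκ : κ ≠ 1)
    (L : Set (SS n V₀)) (h : ∀ s ∈ L, s.2.2.1 = κ⁻¹ ^ (s.2.1 : ℕ)) (hL : pL L ≠ ⊥) :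
    pL L = Subgroup.zpowers κ := by
  have hle : pL L ≤ Subgroup.zpowers κ := by
    unfold pL
    rw [Subgroup.closure_le]
    rintro p ⟨s, hs, rfl⟩
    rw [h s hs]
    exact Subgroup.pow_mem _ (Subgroup.inv_mem _ (Subgroup.mem_zpowers κ)) _
  have ho : orderOf κ = ℓ := orderOf_eq_prime (hV κ) hκ
  have hcard : Nat.card (Subgroup.zpowers κ) = ℓ := by
    rw [Nat.card_zpowers, ho]
  have hf : Finite (Subgroup.zpowers κ) := by
    apply Nat.finite_of_card_ne_zero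
    rw [hcard]
    exact hℓ.out.ne_zero
  have hdvd := Subgroup.card_dvd_of_le hle
  rw [hcard] at hdvd
  rcases (Nat.dvd_prime hℓ.out).1 hdvd with h1 | h1
  · exact absurd (Subgroup.card_eq_one.1 h1) hL
  · exact Subgroup.eq_of_le_of_card_ge hle (by rw [hcard, h1])

end gen

/-- the coefficient in `W12` -/
def co {V₀ : Type} [CommGroup V₀] {n : ℕ} (U : Subgroup V₀ → ℚ) (c d : V₀) (L : Set (SS n V₀))
    (σ : MulAut V₀) : ℚ :=
  ux U (pL L) c * ux U (pL L) (σ d) / ux U (pL L) (c * σ d)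

open Classical in
theorem fin (hLAC : LacStmt) (hLBS : LbsStmt) (hMBI : MbiStmt) (hWTH : WthStmt) (hWA : W12AStmt)
    (hWB : W12BStmt) (hM12 : M12Stmt) (hWZE : WzeStmt) : FinStmt := by
  intro ℓ hℓ M _ hM h2 V₀ G _ _ _ _ E₀ hFr B hSy n m hPE ρ₁ ρ₂ c d r₁ r₂ F₁₃ F₁₂ hc hd hFT hRel
  have hSb : Sb ℓ M E₀ B := hSy.toSb
  have hTS := hLAC ℓ M hM h2 V₀ G E₀ hFr B hSy n m c d hc hd F₁₃ F₁₂ hRel
  rw [hLBS ℓ M hM V₀ G E₀ hFr B hSb n m c d hc hd F₁₃ F₁₂] at hTS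
  obtain ⟨-, hMB2, hMB3, -⟩ := hMBI (SS n V₀) F₁₃
  obtain ⟨-, hMA2, hMA3, -⟩ := hMBI (SS n V₀) F₁₂
  have hEm1 : mob F₁₃ (∅ : Set (SS n V₀)) = 0 := by
    rw [(hMBI (SS n V₀) F₁₃).2.2.2]
    exact hFT.z13 ∅ (Or.inl fun s hs => absurd hs (Set.notMem_empty s))
  set q0 : ℚ := r₁ * r₂ / ℓ ^ 2 with hq0
  have hEm2 : mob F₁₂ (∅ : Set (SS n V₀)) = q0 := by
    rw [(hMBI (SS n V₀) F₁₂).2.2.2]
    exact hFT.z12 ∅ fun s hs => absurd hs (Set.notMem_empty s)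
  set F : Set (SS n V₀) → ℚ := fun T => F₁₂ T - q0 with hF
  have hFmob : ∀ L : Set (SS n V₀), L.Nonempty → mob F₁₂ L = mob F L := fun L hL =>
    (hMA3 L q0 hL).symm
  have hF0 : ∀ L : Set (SS n V₀), pL L = ⊥ → qL L = ⊥ → mob F L = 0 := by
    intro L h1 h2
    refine (hMBI (SS n V₀) F).2.1 L fun T hT => ?_
    have h3 := hFT.z12 T fun s hs => ⟨(pL_bot L).1 h1 s (hT hs), (qL_bot L).1 h2 s (hT hs)⟩
    simp only [hF]
    rw [h3, hq0, sub_self]
  have h13 : ∀ L : Set (SS n V₀), pL L = ⊥ ∨ qL L = ⊥ → mob F₁₃ L = 0 := by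
    intro L h
    refine hMB2 L fun T hT => hFT.z13 T ?_
    rcases h with h | h
    · exact Or.inl fun s hs => (pL_bot L).1 h s (hT hs)
    · exact Or.inr fun s hs => (qL_bot L).1 h s (hT hs)
  have hELe : ∀ L : Set (SS n V₀), pL L ≠ ⊥ → qL L = ⊥ → EL E₀ L = ∅ := by
    intro L h1 h2
    ext σ
    simp only [Set.mem_empty_iff_false, iff_false]
    rintro ⟨-, h3⟩
    apply h1
    rw [pL_bot]
    intro s hs
    rw [← h3 s hs, (qL_bot L).1 h2 s hs, map_one]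
  let _ : Fintype (MulAut V₀) := Fintype.ofFinite _
  let _ : Fintype (Set (SS n V₀)) := Fintype.ofFinite _
  -- the part of `W12` with `aL = ⊥`
  set X : MulAut V₀ → Set (SS n V₀) → ℂ := fun σ L =>
    if pL L ≠ ⊥ ∧ σ ∈ EL E₀ L ∧ aL (c * σ d) L = ⊥ then
      (mob F L : ℂ) * ((co B.U c d L σ : ℚ) : ℂ) * HK B m (c * σ d) L else 0 with hX
  have hW12 : ∀ L : Set (SS n V₀), pL L ≠ ⊥ → (mob F L : ℂ) * W12 B m c d L
      = (mob F L : ℂ) * ((P12 E₀ B.U c d L : ℚ) : ℂ) + ∑ σ, X σ L := by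
    intro L hL
    rw [(hWA ℓ M hM h2 V₀ G E₀ hFr B hSy n m hPE c d L).2 hL, fsum]
    unfold P12
    rw [fsum]
    push_cast
    rw [Finset.mul_sum, Finset.mul_sum, ← Finset.sum_add_distrib]
    refine Finset.sum_congr rfl fun σ _ => ?_
    simp only [hX]
    by_cases h1 : σ ∈ EL E₀ L
    · by_cases h3 : aL (c * σ d) L = ⊥
      · rw [if_pos h1, if_neg (fun h => h.2 h3), if_pos ⟨hL, h1, h3⟩]
        unfold co
        push_cast
        ring
      · rw [if_pos h1, if_pos (show σ ∈ {σ | σ ∈ EL E₀ L ∧ aL (c * σ d) L ≠ ⊥} from ⟨h1, h3⟩),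
          if_neg (fun h => h3 h.2.2), hWB ℓ M hM h2 V₀ G E₀ hFr B hSy n m hPE (c * σ d) L h3]
        push_cast
        ring
    · rw [if_neg h1, if_neg (fun h => h1 h.1), if_neg (fun h => h1 h.2.1)]
      simp
  -- the terms
  have hterm : ∀ L : Set (SS n V₀),
      ((mob F₁₃ L : ℚ) : ℂ) * W13 B m c d L + ((mob F₁₂ L : ℚ) : ℂ) * W12 B m c d L
      = (if L = ∅ then (q0 : ℂ) * L2 B c d else 0)
        + (if pL L ≠ ⊥ ∧ qL L ≠ ⊥ then
            ((mob F₁₃ L * P13 E₀ B.U c d L + mob F₁₂ L * P12 E₀ B.U c d L : ℚ) : ℂ) else 0)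
        + ∑ σ, X σ L := by
    intro L
    by_cases hL : L = ∅
    · subst hL
      have hp : pL (∅ : Set (SS n V₀)) = ⊥ :=
        (pL_bot _).2 fun s hs => absurd hs (Set.notMem_empty s)
      have hX0 : ∑ σ, X σ (∅ : Set (SS n V₀)) = 0 := by
        refine Finset.sum_eq_zero fun σ _ => ?_
        simp only [hX]
        rw [if_neg (fun h => h.1 hp)]
      rw [if_pos rfl, if_neg (fun h => h.1 hp), hX0, hEm1, hEm2,
        ((hWZE ℓ M hM V₀ G E₀ hFr.ex B hSb).2.2 n m c d hc hd).2]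
      push_cast
      ring
    · have hLn : L.Nonempty := Set.nonempty_iff_ne_empty.2 hL
      rw [if_neg hL, zero_add]
      by_cases hp : pL L = ⊥
      · have hX0 : ∑ σ, X σ L = 0 := by
          refine Finset.sum_eq_zero fun σ _ => ?_
          simp only [hX]
          rw [if_neg (fun h => h.1 hp)]
        rw [if_neg (fun h => h.1 hp), hX0, h13 L (Or.inl hp)]
        by_cases hq : qL L = ⊥
        · rw [hFmob L hLn, hF0 L hp hq]
          simp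
        · rw [(hWA ℓ M hM h2 V₀ G E₀ hFr B hSy n m hPE c d L).1 hp hq]
          simp
      · have h1 : ((mob F₁₂ L : ℚ) : ℂ) * W12 B m c d L
            = (mob F₁₂ L : ℂ) * ((P12 E₀ B.U c d L : ℚ) : ℂ) + ∑ σ, X σ L := by
          rw [hFmob L hLn]
          exact hW12 L hp
        by_cases hq : qL L = ⊥
        · have hP : P12 E₀ B.U c d L = 0 := by
            unfold P12
            rw [fsum]
            refine Finset.sum_eq_zero fun σ _ => ?_
            rw [if_neg]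
            rintro ⟨h3, -⟩
            rw [hELe L hp hq] at h3
            exact h3
          rw [if_neg (fun h => h.2 hq), h1, h13 L (Or.inr hq), hP]
          simp
        · rw [if_pos ⟨hp, hq⟩, h1, hWTH ℓ M hM h2 V₀ G E₀ hFr B hSy n m hPE c d L hp hq]
          push_cast
          ring
  -- the sum over `L` of `X σ L`
  have hn0 : 0 < n := by
    obtain ⟨r, -, hr⟩ := hPE.pw
    rw [hr]
    exact pow_pos hℓ.out.pos r
  have hXs : ∀ σ : MulAut V₀, ∑ L, X σ L = if σ ∈ {σ : MulAut V₀ | σ ∈ E₀ ∧ c * σ d ≠ 1} then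
      -(((cfL B.U ρ₁ ρ₂ c d σ : ℚ) : ℂ) / ℓ ^ 2 * L1 B (c * σ d)) else 0 := by
    intro σ
    by_cases hσ : σ ∈ {σ : MulAut V₀ | σ ∈ E₀ ∧ c * σ d ≠ 1}
    · rw [if_pos hσ]
      obtain ⟨hσE, hκ⟩ := hσ
      set κ : V₀ := c * σ d with hκd
      set cf : ℚ := ux B.U (Subgroup.zpowers κ) c * ux B.U (Subgroup.zpowers κ) (σ d) with hcf
      have hval : ∀ L : Set (SS n V₀), X σ L = (cf : ℂ) * (if L ∈ tz κ (σ⁻¹ κ) then
          (mob F L : ℂ) * HK B m κ L else 0) := by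
        intro L
        by_cases hL : L ∈ tz κ (σ⁻¹ κ)
        · obtain ⟨h1, h3⟩ := (tz_iff E₀ σ hσE κ L).1 hL
          rw [if_pos hL]
          by_cases hp : pL L = ⊥
          · have hq : qL L = ⊥ := by
              rw [qL_bot]
              intro s hs
              have h4 := h1.2 s hs
              rw [(pL_bot L).1 hp s hs] at h4
              exact (map_eq_one_iff σ σ.injective).1 h4
            simp only [hX]
            rw [if_neg (fun h => h.1 hp), hF0 L hp hq]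
            simp
          · have hz := pL_zp (ℓ := ℓ) hFr.ex hκ L (fun s hs => (hL s hs).1) hp
            have hco : co B.U c d L σ = cf := by
              unfold co
              rw [hz]
              have h5 : ux B.U (Subgroup.zpowers κ) κ = 1 :=
                if_pos (Subgroup.mem_zpowers κ)
              rw [← hκd, h5, div_one]
            simp only [hX]
            rw [if_pos ⟨hp, h1, h3⟩, hco]
            ring
        · rw [if_neg hL, mul_zero]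
          simp only [hX]
          rw [if_neg]
          rintro ⟨-, h1, h3⟩
          exact hL ((tz_iff E₀ σ hσE κ L).2 ⟨h1, h3⟩)
      have hv := hM12 ℓ M hM V₀ G E₀ hFr.ex B hSb n m κ (σ⁻¹ κ) hκ F
        (-((ρ₁ κ⁻¹).val * (ρ₂ (σ⁻¹ κ)⁻¹).val) / ℓ ^ 2) hn0 (by
          intro I hI
          have h6 : κ⁻¹ ≠ c⁻¹ := by
            intro h
            have h7 : κ = c := inv_injective h
            rw [hκd, mul_eq_left] at h7
            exact hd ((map_eq_one_iff σ σ.injective).1 h7)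
          have h8 : (σ⁻¹ κ)⁻¹ ≠ d⁻¹ := by
            intro h
            have h9 : σ⁻¹ κ = d := inv_injective h
            have h10 : κ = σ d := by
              rw [← h9, MulAut.apply_inv_self]
            rw [hκd, mul_eq_right] at h10
            exact hc h10
          have h11 := hFT.main κ⁻¹ (σ⁻¹ κ)⁻¹ I hI h6 h8
          simp only [hF]
          rw [h11, hq0]
          ring)
      have hv' : ∑ L, (if L ∈ tz κ (σ⁻¹ κ) then (mob F L : ℂ) * HK B m κ L else 0)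
          = ((-((ρ₁ κ⁻¹).val * (ρ₂ (σ⁻¹ κ)⁻¹).val) / ℓ ^ 2 : ℚ) : ℂ) * L1 B κ := by
        rw [← hv, fsum]
        rfl
      rw [Finset.sum_congr rfl fun L _ => hval L, ← Finset.mul_sum, hv']
      unfold cfL
      rw [← hκd]
      simp only [hcf]
      push_cast
      ring
    · rw [if_neg hσ]
      refine Finset.sum_eq_zero fun L _ => ?_
      simp only [hX]
      rw [if_neg]
      rintro ⟨hp, h1, h3⟩
      apply hσ
      refine ⟨h1.1, fun hκ => hp ?_⟩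
      rw [pL_bot]
      intro s hs
      have h4 := (aL_bot _ L).1 h3 s hs
      rwa [hκ, one_pow, one_mul] at h4
  -- assembly
  have htot : ∑ᶠ L : Set (SS n V₀), (((mob F₁₃ L : ℚ) : ℂ) * W13 B m c d L +
      ((mob F₁₂ L : ℚ) : ℂ) * W12 B m c d L)
      = (r₁ * r₂ : ℂ) / ℓ ^ 2 * L2 B c d -
      ∑ᶠ σ ∈ {σ : MulAut V₀ | σ ∈ E₀ ∧ c * σ d ≠ 1},
        ((cfL B.U ρ₁ ρ₂ c d σ : ℚ) : ℂ) / ℓ ^ 2 * L1 B (c * σ d) +
      ((PPd E₀ B.U c d F₁₃ F₁₂ : ℚ) : ℂ) := by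
    rw [finsum_eq_sum_of_fintype, Finset.sum_congr rfl fun L _ => hterm L,
      Finset.sum_add_distrib, Finset.sum_add_distrib, Finset.sum_comm,
      Finset.sum_congr rfl fun σ _ => hXs σ, Finset.sum_ite_eq' Finset.univ ∅,
      if_pos (Finset.mem_univ _)]
    have e1 : (∑ σ : MulAut V₀, if σ ∈ {σ : MulAut V₀ | σ ∈ E₀ ∧ c * σ d ≠ 1} then
        -(((cfL B.U ρ₁ ρ₂ c d σ : ℚ) : ℂ) / ℓ ^ 2 * L1 B (c * σ d)) else 0)
        = -∑ᶠ σ ∈ {σ : MulAut V₀ | σ ∈ E₀ ∧ c * σ d ≠ 1},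
        ((cfL B.U ρ₁ ρ₂ c d σ : ℚ) : ℂ) / ℓ ^ 2 * L1 B (c * σ d) := by
      rw [fsum, ← Finset.sum_neg_distrib]
      refine Finset.sum_congr rfl fun σ _ => ?_
      split_ifs
      · rfl
      · simp
    have e2 : (∑ L : Set (SS n V₀), if pL L ≠ ⊥ ∧ qL L ≠ ⊥ then
        ((mob F₁₃ L * P13 E₀ B.U c d L + mob F₁₂ L * P12 E₀ B.U c d L : ℚ) : ℂ) else 0)
        = ((PPd E₀ B.U c d F₁₃ F₁₂ : ℚ) : ℂ) := by
      unfold PPd
      rw [fsum, Rat.cast_sum]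
      refine Finset.sum_congr rfl fun L _ => ?_
      by_cases h : pL L ≠ ⊥ ∧ qL L ≠ ⊥
      · rw [if_pos h, if_pos (show L ∈ {L : Set (SS n V₀) | pL L ≠ ⊥ ∧ qL L ≠ ⊥} from h)]
      · rw [if_neg h, if_neg (show L ∉ {L : Set (SS n V₀) | pL L ≠ ⊥ ∧ qL L ≠ ⊥} from h)]
        simp
    rw [e1, e2, hq0]
    push_cast
    ring
  rw [htot] at hTS
  exact hTS

end Pool.Agent.PP.SO.H48
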