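import Pool.Agent.ASO.Stmts5

/-! Row PEX of table aso: existence of the exponent `m` -/

open scoped BigOperators

noncomputable section

namespace Pool.Agent.PP.SO.H48

open Pool.Agent.Helper51_AWC Pool.Agent.Helper79_WRA Pool.Agent.PP Pool.Agent.PP.KF
open Pool.Agent.PP.K9 Pool.Agent.PP.K9.H97 Pool.Agent.PP.H75 Pool.Agent.PP.T3 Pool.Agent.PP.SO

theorem pex : PexStmt := by
  intro ℓ hℓ G _ _
  have hp : ℓ.Prime := hℓ.out
  have hN : Nat.card G ≠ 0 := Nat.card_pos.ne'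
  obtain ⟨a, b, hb, hab⟩ := Nat.exists_eq_pow_mul_and_not_dvd hN ℓ hp.ne_one
  have hcop : (ℓ ^ (a + 1)).Coprime b :=
    Nat.Coprime.pow_left _ ((Nat.Prime.coprime_iff_not_dvd hp).2 hb)
  obtain ⟨m, hm1, hm2⟩ := Nat.chineseRemainder hcop 1 0
  refine ⟨a + 1, m, Nat.succ_pos a, ⟨⟨a + 1, Nat.succ_pos a, rfl⟩, ?_, ?_, ?_⟩⟩
  · have h1 : m ≡ 1 [MOD ℓ] := hm1.of_dvd (dvd_pow_self ℓ (Nat.succ_ne_zero a))
    have h2 : m % ℓ = 1 % ℓ := h1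
    rw [h2, Nat.mod_eq_of_lt hp.one_lt]
  · rintro g ⟨k, hk⟩
    have h1 : orderOf g ∣ ℓ ^ k := orderOf_dvd_of_pow_eq_one hk
    obtain ⟨j, -, hj⟩ := (Nat.dvd_prime_pow hp).1 h1
    have h2 : orderOf g ∣ Nat.card G := orderOf_dvd_natCard g
    rw [hab, hj] at h2
    have h3 : (ℓ ^ j).Coprime b := Nat.Coprime.pow_left _ ((Nat.Prime.coprime_iff_not_dvd hp).2 hb)
    have h4 : ℓ ^ j ∣ ℓ ^ a := h3.dvd_of_dvd_mul_right h2
    have h5 : ℓ ^ j ∣ ℓ ^ (a + 1) := h4.trans (pow_dvd_pow ℓ (Nat.le_succ a))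
    rw [← hj] at h5
    refine ⟨?_, orderOf_dvd_iff_pow_eq_one.1 h5⟩
    have h6 : m ≡ 1 [MOD orderOf g] := hm1.of_dvd h5
    have h7 := pow_eq_pow_iff_modEq.2 h6
    rwa [pow_one] at h7
  · intro g hg
    have h2 : orderOf g ∣ Nat.card G := orderOf_dvd_natCard g
    rw [hab] at h2
    have h3 : (orderOf g).Coprime (ℓ ^ a) := Nat.Coprime.pow_right a hg
    have h4 : orderOf g ∣ b := h3.dvd_of_dvd_mul_left h2
    have h5 : b ∣ m := (Nat.modEq_zero_iff_dvd).1 hm2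
    exact orderOf_dvd_iff_pow_eq_one.1 (h4.trans h5)

end Pool.Agent.PP.SO.H48
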